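import Pool.Agent.H65.Squier3

set_option autoImplicit false

open Pool.Agent.H65.Squier

theorem Pool.Agent.Results.MP_a5725c_al.Undec.result :
    ∃ (k : ℕ) (R : Set (List (Fin k) × List (Fin k))), R.Finite ∧
      (∀ r ∈ R, r.1 ≠ [] ∧ r.2 ≠ [] ∧ (r.2, r.1) ∉ R) ∧
      ¬ ∃ f : List (Fin k) → Option ℕ, Computable f ∧
        ∀ (w : List (Fin k)) (h : w ≠ []) (n : ℕ),
          f w = some n ↔ abRank (DiagramGroup R ⟨w, h⟩) = n :=
  rank_undec
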